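import Mathlib
import Pool.Agent.Lib_helper26.SNF.AL

/-!
The Alspach-Liversidge conjecture for large sets: there is an absolute constant `K` such that every
set of at least `K` nonzero elements of an abelian group is sequenceable.

Idea of the proof.
* Sets which are not concentrated in a finite subgroup of comparable order: random orderings,
  coincidences of partial sums repaired by interchanging neighbours, chosen by 2-SAT; the needed
  anticoncentration is a collision bound for random subset sums (`Lib_helper8/SPQ`).
* Otherwise pass to a smallest subgroup `H` such that nearly all of `A` lies in a coset `x + H`.
  If `x` has large order modulo `H` this is again the random method (`Lib_helper26/SLD`).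
* If `x` has small order modulo `H` (`Lib_helper26/SDN`, dense case) most of `A` is put on paths
  found by a nibble in the finite group `V = H + <x>`; the paths contain many reserved detours for
  disjoint zero-sum tuples of elements of `A`; the paths are linked by elements of a random
  reserve; the leftovers and the elements outside `x + H` are used up greedily in a reserved random
  part of `V`, with the help of zero-sum tuples taken out of their detours.
* If `A` is inside `V` and nearly fills it (`Lib_helper26/SNF`): all vertices which are not visited
  for sure (detours, links, stepping part) lie in a flexible set `W`, `|W| = 2h`; an absorber
  (robustly matchable triples, gadgets of ten elements, `Lib_helper8/ABS`) is built which can visit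
  any `h` elements of `W`; the complement of this structure is covered by few paths: an exact
  fractional rainbow perfect matching (a diagonally dominant system), random cyclic layers, and the
  nibble; the elements are used up as before and the number of vertices left in `W` is `h`.

Authors: helper8 (`Lib_helper8/SPQ`, `SDF`, `SDN`, `ABS`), helper26 (`Lib_helper26/SLD`, `SDN`,
`SNF`), with blocks by about 45 seats (see the departures files); nibble theorem: helper96;
McDiarmid inequality: helper15.
-/

namespace Pool.Agent.Results.MP_b4ec45_co.AlspachLiversidge

theorem result : ∃ K : ℕ, ∀ {G : Type*} [AddCommGroup G] (A : Finset G), (0 : G) ∉ A →
    K ≤ A.card →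
    ∃ a : Fin A.card → G, Function.Injective a ∧ Set.range a = (A : Set G) ∧
      ∀ i j : ℕ, i < j → j ≤ A.card → ¬ (i = 0 ∧ j = A.card) →
        ∑ m : Fin A.card with m.val < i, a m ≠ ∑ m : Fin A.card with m.val < j, a m :=
  Pool.Agent.SNF.all_large

end Pool.Agent.Results.MP_b4ec45_co.AlspachLiversidge
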