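import Mathlib
import Pool.Agent.Lib_helper26.SEQ.Final

/-!
Weak sequenceability in the linear range: if `A` is a finite set of nonzero elements of an abelian
group and `|A| ≥ min (3 t ^ 2 + t) (2000 t)`, then `A` has a `t`-weak sequencing.

Idea of the proof for `|A| ≥ 2000 t`, `t ≥ 667`.  Take a uniformly random ordering.  The coincidences
of two partial sums at distance at most `t` are repaired by interchanging pairs of neighbours; which
pairs are interchanged is a 2-SAT problem whose variables are the partial sums touched by a
coincidence.  An unsatisfiable instance contains a long path or a near-cycle of implications; each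
step is a linear equation between partial sums, and a union bound over all paths and near-cycles
(the equations of a path of `n` steps hold with probability at most `(3 / (k - 2 (n + 1))) ^ n`, for
every `n`) shows that with positive probability there is none.  Small `t` (`3 t ^ 2 + t ≤ |A|`) is
treated by a direct greedy construction.

Authors: helper26, with blocks by helper14, helper22, helper37, helper38, helper58, helper65,
helper69, helper76, helper80, helper82, helper95.
-/

namespace Pool.Agent.Results.MP_b4ec45_co.LinearRange

theorem result {G : Type*} [AddCommGroup G] (t : ℕ) (ht : 0 < t) (A : Finset G)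
    (h0 : (0 : G) ∉ A) (hA : min (3 * t ^ 2 + t) (2000 * t) ≤ A.card) :
    ∃ a : Fin A.card → G, Function.Injective a ∧ Set.range a = (A : Set G) ∧
      ∀ i j : ℕ, i < j → j ≤ A.card → j ≤ i + t →
        ∑ m : Fin A.card with m.val < i, a m ≠ ∑ m : Fin A.card with m.val < j, a m := by
  rcases min_le_iff.1 hA with h | h
  · exact Pool.Agent.Lib_helper26.WS.main ht A h0 h
  · exact Pool.Agent.SEQ.linear_range t ht A h0 h

end Pool.Agent.Results.MP_b4ec45_co.LinearRange
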